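import Pool.Agent.MVS.Stmts
import Pool.Agent.Helper36_RF.Chr
import Pool.Agent.Helper9_RF.Sym
import Pool.Agent.Helper5_RF.Cyl

/-!
# MVS, row FLB: pointwise facts on the fields along a normal geodesic
-/

noncomputable section

open scoped ContDiff Topology RealInnerProductSpace
set_option maxSynthPendingDepth 3
open Set MeasureTheory

namespace Pool.Agent.MVS.H81

open Pool.Agent.RF Pool.Agent.MVS

variable {G : E5 → Bil E5} {κ : Finset (Fin 5)} {a b : ℝ} {F : E5 → E5}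

theorem isOpen_O (κ : Finset (Fin 5)) : IsOpen {z : E5 | pN κ z ≠ 0} :=
  isOpen_ne_fun (pN κ).continuous continuous_const

theorem cda (hN : NData G κ F) {z : E5} (hz : pN κ z ≠ 0) : ContDiffAt ℝ ∞ F z :=
  hN.smooth.contDiffAt ((isOpen_O κ).mem_nhds hz)

theorem da (hN : NData G κ F) {z : E5} (hz : pN κ z ≠ 0) : DifferentiableAt ℝ F z :=
  (cda hN hz).differentiableAt (by simp)

theorem dda (hN : NData G κ F) {z : E5} (hz : pN κ z ≠ 0) : DifferentiableAt ℝ (fderiv ℝ F) z :=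
  ((cda hN hz).fderiv_right (m := ∞) (by simp)).differentiableAt (by simp)

theorem line_deriv (x v : E5) (t : ℝ) : HasDerivAt (fun s : ℝ => x + s • v) v t := by
  simpa using ((hasDerivAt_id t).smul_const v).const_add x

theorem gam_deriv (hN : NData G κ F) {σ y : E5} {t : ℝ} (hz : pN κ (σ + t • y) ≠ 0) :
    HasDerivAt (gam F σ y) (Tv F σ y t) t :=
  (da hN hz).hasFDerivAt.comp_hasDerivAt t (line_deriv σ y t)

theorem tv_deriv (hN : NData G κ F) {σ y : E5} {t : ℝ} (hz : pN κ (σ + t • y) ≠ 0) :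
    HasDerivAt (Tv F σ y) (fderiv ℝ (fun z => fderiv ℝ F z y) (σ + t • y) y) t := by
  have h1 : DifferentiableAt ℝ (fun z => fderiv ℝ F z y) (σ + t • y) :=
    (dda hN hz).clm_apply (differentiableAt_const y)
  exact h1.hasFDerivAt.comp_hasDerivAt t (line_deriv σ y t)

theorem vf_deriv (hN : NData G κ F) {σ y : E5} (w : E5) {t : ℝ} (hz : pN κ (σ + t • y) ≠ 0) :
    HasDerivAt (Vf κ F σ y w)
      (fderiv ℝ (fderiv ℝ F) (σ + t • y) y (pN κ w + t • pP κ w) +
        fderiv ℝ F (σ + t • y) (pP κ w)) t := by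
  have h1 : HasDerivAt (fun s : ℝ => fderiv ℝ F (σ + s • y))
      (fderiv ℝ (fderiv ℝ F) (σ + t • y) y) t :=
    (dda hN hz).hasFDerivAt.comp_hasDerivAt t (line_deriv σ y t)
  exact h1.clm_apply (line_deriv (pN κ w) (pP κ w) t)

theorem second_symm (hN : NData G κ F) {z : E5} (hz : pN κ z ≠ 0) (v w : E5) :
    fderiv ℝ (fderiv ℝ F) z v w = fderiv ℝ (fderiv ℝ F) z w v := by
  have h1 : IsSymmSndFDerivAt ℝ F z := (cda hN hz).isSymmSndFDerivAt (by
    rw [minSmoothness_of_isRCLikeNormedField]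
    exact WithTop.coe_le_coe.mpr le_top)
  exact h1 v w

theorem flb (hR : RotStatement) (hE : EqvStatement) (hGau : GauStatement) : FlbStatement := by
  intro G κ a b F hS hN σ y hσ hσ0 hy hy1 w w' t
  obtain ⟨r1, r2, r3, r4, r5, r6, r7, r8, -⟩ := hR
  obtain ⟨-, e2, e3⟩ := hE G κ a b hS
  have hG := hS.cyl.metric
  have hCh := chrStatement
  have hyy : ⟪y, y⟫ = (1 : ℝ) := by
    rw [real_inner_self_eq_norm_sq, hy1]
    norm_num
  have hσN : pN κ σ = σ := by
    have := r1 κ σ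
    rwa [hσ, add_zero] at this
  have hyP : pP κ y = y := by
    have := r1 κ y
    rwa [hy, zero_add] at this
  have hzN : ∀ s : ℝ, pN κ (σ + s • y) = σ := by
    intro s
    rw [map_add, map_smul, hy, smul_zero, add_zero, hσN]
  have hzP : ∀ s : ℝ, pP κ (σ + s • y) = s • y := by
    intro s
    rw [map_add, map_smul, hσ, zero_add, hyP]
  have hz : ∀ s : ℝ, pN κ (σ + s • y) ≠ 0 := by
    intro s
    rw [hzN]
    exact hσ0
  have hnorm : ∀ s : ℝ, ‖F (σ + s • y)‖ = ‖σ‖ := by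
    intro s
    rw [hN.norm _ (hz s), hzN]
  have hOm : ∀ s : ℝ, F (σ + s • y) ∈ Om (Fin 5) := by
    intro s h0
    have h1 := hnorm s
    rw [h0, norm_zero] at h1
    exact hσ0 (norm_eq_zero.mp h1.symm)
  have hσOm : σ ∈ Om (Fin 5) := hσ0
  have hz0 : σ + (0 : ℝ) • y = σ := by rw [zero_smul, add_zero]
  have hbase : F σ = σ := hN.base σ hσ hσ0
  have hzσ : pN κ σ ≠ 0 := by
    rw [hσN]
    exact hσ0
  -- orthogonality of `N` and `P` at `σ`
  have eNP : ∀ u v, pP κ u = 0 → pN κ v = 0 → G σ u v = 0 := e2 σ hσ hσ0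
  have ePN : ∀ u v, pP κ u = 0 → pN κ v = 0 → G σ v u = 0 := by
    intro u v hu hv
    rw [hG.symm σ hσOm]
    exact eNP u v hu hv
  -- (12)
  have f12 : ∀ w : E5, G (gam F σ y t) (Tv F σ y t) (Vf κ F σ y w t) = t * ⟪y, w⟫ := by
    intro w
    by_cases ht : t = 0
    · subst ht
      unfold gam Tv Vf
      rw [hz0, hbase, zero_smul, add_zero, hN.dN σ hσ hσ0 _ (r7 κ w), zero_mul]
      exact ePN _ _ (r7 κ w) (hN.dP σ hσ hσ0 y hy)
    · have h1 := hGau G κ a b F hS hN (σ + t • y) (hz t) (pN κ w + t • pP κ w)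
      rw [hzP, map_smul, map_smul, _root_.smul_apply, smul_eq_mul, inner_smul_left,
        inner_add_right, inner_smul_right] at h1
      have h2 : ⟪y, pN κ w⟫ = (0 : ℝ) := by
        rw [← r3, hy, inner_zero_left]
      have h3 : ⟪y, pP κ w⟫ = ⟪y, w⟫ := by
        rw [← r4, hyP]
      rw [h2, h3, zero_add] at h1
      have h4 : (starRingEnd ℝ) t = t := rfl
      rw [h4] at h1
      exact mul_left_cancel₀ ht h1
  -- (4)
  have f4 : ∀ w : E5, Vf κ F σ y w 0 = pN κ w := by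
    intro w
    unfold Vf
    rw [hz0, zero_smul, add_zero]
    exact hN.dN σ hσ hσ0 _ (r7 κ w)
  -- (9)
  have f9a : Vf κ F σ y y t = t • Tv F σ y t := by
    unfold Vf Tv
    rw [hy, hyP, zero_add, map_smul]
  -- (3)
  have f3 : G (gam F σ y t) (Tv F σ y t) (Tv F σ y t) = 1 := by
    by_cases ht : t = 0
    · subst ht
      unfold gam Tv
      rw [hz0, hbase, hN.iso σ hσ hσ0 y y hy hy, hyy]
    · have h1 := f12 y
      rw [f9a, map_smul, smul_eq_mul, hyy] at h1
      exact mul_left_cancel₀ ht h1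
  -- derivative of the fields
  have hT : deriv (Tv F σ y) t =
      - chris G (gam F σ y t) (Tv F σ y t) (Tv F σ y t) := by
    rw [(tv_deriv hN (hz t)).deriv]
    exact hN.geo σ hσ hσ0 y hy t
  have f9b : DVf G κ F σ y y t = Tv F σ y t := by
    unfold DVf
    have h1 : Vf κ F σ y y = fun s => s • Tv F σ y s := by
      funext s
      unfold Vf Tv
      rw [hy, hyP, zero_add, map_smul]
    have h2 : HasDerivAt (fun s : ℝ => s • Tv F σ y s)
        (t • deriv (Tv F σ y) t + (1 : ℝ) • Tv F σ y t) t :=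
      (hasDerivAt_id t).smul (tv_deriv hN (hz t)).differentiableAt.hasDerivAt
    rw [h1, h2.deriv, hT]
    simp only
    rw [chris_smul_right, one_smul, smul_neg]
    abel
  -- (10)
  have f10a : ∀ s : ℝ, Vf κ F σ y σ s = gam F σ y s := by
    intro s
    unfold Vf gam
    rw [hσ, hσN, smul_zero, add_zero]
    have h1 : HasDerivAt (fun c : ℝ => c • σ + s • y) σ 1 := by
      simpa using ((hasDerivAt_id (1 : ℝ)).smul_const σ).add_const (s • y)
    have h2 : HasDerivAt (fun c : ℝ => F (c • σ + s • y)) (fderiv ℝ F (σ + s • y) σ) 1 := by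
      have h3 : HasFDerivAt F (fderiv ℝ F (σ + s • y)) ((1 : ℝ) • σ + s • y) := by
        rw [one_smul]
        exact (da hN (hz s)).hasFDerivAt
      exact h3.comp_hasDerivAt (1 : ℝ) h1
    have h4 : HasDerivAt (fun c : ℝ => c • F (σ + s • y)) (F (σ + s • y)) 1 := by
      simpa using (hasDerivAt_id (1 : ℝ)).smul_const (F (σ + s • y))
    have h5 : (fun c : ℝ => F (c • σ + s • y)) =ᶠ[𝓝 1] fun c : ℝ => c • F (σ + s • y) := by
      filter_upwards [lt_mem_nhds (show (0 : ℝ) < 1 by norm_num)] with c hc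
      have h6 := hN.hom c hc (σ + s • y) (hz s)
      rw [hzN, hzP] at h6
      exact h6
    exact h2.unique (h4.congr_of_eventuallyEq h5)
  have f10b : DVf G κ F σ y σ t = 0 := by
    unfold DVf
    have h1 : Vf κ F σ y σ = gam F σ y := funext f10a
    rw [h1, (gam_deriv hN (hz t)).deriv]
    have h2 := RF.H5.cyl_chris_x hCh hS.cyl (hOm t) (Tv F σ y t)
    unfold gam at h2 ⊢
    rw [h2, add_neg_cancel]
  -- (11)
  have f11 : G (gam F σ y t) (gam F σ y t) (Vf κ F σ y w t) = ⟪σ, w⟫ / ‖σ‖ ^ 2 := by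
    unfold gam
    rw [hS.cyl.radial _ (hOm t), hnorm]
    congr 1
    -- the derivative of the norm
    have h1 : HasFDerivAt (fun z : E5 => ⟪F z, F z⟫)
        ((fderivInnerCLM ℝ (F (σ + t • y), F (σ + t • y))).comp
          ((fderiv ℝ F (σ + t • y)).prod (fderiv ℝ F (σ + t • y)))) (σ + t • y) :=
      (da hN (hz t)).hasFDerivAt.inner ℝ (da hN (hz t)).hasFDerivAt
    have h2 : HasFDerivAt (fun z : E5 => ⟪pN κ z, pN κ z⟫)
        ((fderivInnerCLM ℝ (pN κ (σ + t • y), pN κ (σ + t • y))).comp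
          ((pN κ).prod (pN κ))) (σ + t • y) :=
      (pN κ).hasFDerivAt.inner ℝ (pN κ).hasFDerivAt
    have h3 : (fun z : E5 => ⟪F z, F z⟫) =ᶠ[𝓝 (σ + t • y)] fun z => ⟪pN κ z, pN κ z⟫ := by
      filter_upwards [(isOpen_O κ).mem_nhds (hz t)] with z hz'
      rw [real_inner_self_eq_norm_sq, real_inner_self_eq_norm_sq, hN.norm z hz']
    have h4 := h1.unique (h2.congr_of_eventuallyEq h3)
    have h5 := congrArg (fun L : E5 →L[ℝ] ℝ => L (pN κ w + t • pP κ w)) h4
    simp only [ContinuousLinearMap.comp_apply, ContinuousLinearMap.prod_apply,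
      fderivInnerCLM_apply] at h5
    have h6 : ⟪F (σ + t • y), fderiv ℝ F (σ + t • y) (pN κ w + t • pP κ w)⟫ =
        ⟪pN κ (σ + t • y), pN κ (pN κ w + t • pP κ w)⟫ := by
      have h7 := real_inner_comm (F (σ + t • y)) (fderiv ℝ F (σ + t • y) (pN κ w + t • pP κ w))
      have h8 := real_inner_comm (pN κ (σ + t • y)) (pN κ (pN κ w + t • pP κ w))
      linarith
    unfold Vf
    rw [h6, hzN, map_add, map_smul, r8, smul_zero, add_zero, r6, ← r3, hσN]
  -- the covariant derivative at `0`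
  have hD0 : ∀ w : E5, DVf G κ F σ y w 0 = fderiv ℝ (fderiv ℝ F) σ y (pN κ w) +
      fderiv ℝ F σ (pP κ w) + chris G σ (fderiv ℝ F σ y) (pN κ w) := by
    intro w
    have h1 := (vf_deriv hN (y := y) w (t := 0) (hz 0)).deriv
    rw [hz0, zero_smul, add_zero] at h1
    unfold DVf
    rw [h1, f4]
    unfold gam Tv
    rw [hz0, hbase]
  -- (5)
  have f5 : G σ (DVf G κ F σ y w 0) (pN κ w') = 0 := by
    rw [hD0, map_add, map_add, _root_.add_apply, _root_.add_apply]
    have hn : pP κ (pN κ w) = 0 := r7 κ w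
    have hn' : pP κ (pN κ w') = 0 := r7 κ w'
    have hu : pN κ (fderiv ℝ F σ y) = 0 := hN.dP σ hσ hσ0 y hy
    -- points of `N` near `σ`
    have ev : ∀ᶠ s : ℝ in 𝓝 0, σ + s • pN κ w ≠ 0 := by
      have hc : ContinuousAt (fun s : ℝ => σ + s • pN κ w) 0 :=
        (line_deriv σ (pN κ w) 0).continuousAt
      refine hc.eventually_ne ?_
      simpa using hσ0
    have hPl : ∀ s : ℝ, pP κ (σ + s • pN κ w) = 0 := by
      intro s
      rw [map_add, map_smul, hσ, hn, smul_zero, add_zero]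
    have g1 : G σ (fderiv ℝ (fderiv ℝ F) σ y (pN κ w)) (pN κ w') = 0 := by
      refine ePN _ _ hn' ?_
      rw [second_symm hN hzσ]
      have k1 : HasDerivAt (fun s : ℝ => pN κ (fderiv ℝ F (σ + s • pN κ w) y))
          (pN κ (fderiv ℝ (fderiv ℝ F) σ (pN κ w) y)) 0 := by
        have k2 : HasFDerivAt (fderiv ℝ F) (fderiv ℝ (fderiv ℝ F) σ)
            (σ + (0 : ℝ) • pN κ w) := by
          rw [zero_smul, add_zero]
          exact (dda hN hzσ).hasFDerivAt
        have k3 : HasDerivAt (fun s : ℝ => fderiv ℝ F (σ + s • pN κ w))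
            (fderiv ℝ (fderiv ℝ F) σ (pN κ w)) 0 :=
          k2.comp_hasDerivAt (0 : ℝ) (line_deriv σ (pN κ w) 0)
        have k4 := k3.clm_apply (hasDerivAt_const (0 : ℝ) y)
        rw [map_zero, add_zero] at k4
        exact (pN κ).hasFDerivAt.comp_hasDerivAt (0 : ℝ) k4
      have k5 : (fun s : ℝ => pN κ (fderiv ℝ F (σ + s • pN κ w) y)) =ᶠ[𝓝 0]
          fun _ => (0 : E5) := by
        filter_upwards [ev] with s hs
        exact hN.dP _ (hPl s) hs y hy
      exact (k1.congr_of_eventuallyEq k5.symm).unique (hasDerivAt_const (0 : ℝ) (0 : E5))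
    have g2 : G σ (fderiv ℝ F σ (pP κ w)) (pN κ w') = 0 :=
      ePN _ _ hn' (hN.dP σ hσ hσ0 _ (r8 κ w))
    have g3 : G σ (chris G σ (fderiv ℝ F σ y) (pN κ w)) (pN κ w') = 0 := by
      have k1 := RF.H9.ChrFacts.compat (RF.H9.chrFacts hCh hG) hσOm (pN κ w) (fderiv ℝ F σ y) (pN κ w')
        (hG.symm σ hσOm)
      have k2 : G σ (fderiv ℝ F σ y) (chris G σ (pN κ w) (pN κ w')) = 0 :=
        ePN _ _ (e3 σ hσ hσ0 _ _ hn hn') hu
      have k3 : fderiv ℝ G σ (pN κ w) (fderiv ℝ F σ y) (pN κ w') = 0 := by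
        have k4 : HasDerivAt (fun s : ℝ => G (σ + s • pN κ w) (fderiv ℝ F σ y) (pN κ w'))
            (fderiv ℝ G σ (pN κ w) (fderiv ℝ F σ y) (pN κ w')) 0 := by
          have k5 : HasFDerivAt G (fderiv ℝ G σ) (σ + (0 : ℝ) • pN κ w) := by
            rw [zero_smul, add_zero]
            exact (hG.diffAt hσOm).hasFDerivAt
          have k6 : HasDerivAt (fun s : ℝ => G (σ + s • pN κ w)) (fderiv ℝ G σ (pN κ w)) 0 :=
            k5.comp_hasDerivAt (0 : ℝ) (line_deriv σ (pN κ w) 0)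
          have k7 := k6.clm_apply (hasDerivAt_const (0 : ℝ) (fderiv ℝ F σ y))
          rw [map_zero, add_zero] at k7
          have k8 := k7.clm_apply (hasDerivAt_const (0 : ℝ) (pN κ w'))
          rw [map_zero, add_zero] at k8
          exact k8
        have k9 : (fun s : ℝ => G (σ + s • pN κ w) (fderiv ℝ F σ y) (pN κ w')) =ᶠ[𝓝 0]
            fun _ => (0 : ℝ) := by
          filter_upwards [ev] with s hs
          rw [hG.symm _ hs]
          exact e2 _ (hPl s) hs _ _ hn' hu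
        exact (k4.congr_of_eventuallyEq k9.symm).unique (hasDerivAt_const (0 : ℝ) (0 : ℝ))
      rw [k3, k2, add_zero, hG.chris_symm hσOm] at k1
      exact k1.symm
    rw [g1, g2, g3, add_zero, add_zero]
  -- (8)
  have f8 : pN κ w = 0 → G σ (DVf G κ F σ y w 0) (DVf G κ F σ y w 0) = ⟪w, w⟫ := by
    intro hw
    have hwP : pP κ w = w := by
      have := r1 κ w
      rwa [hw, zero_add] at this
    have h1 : chris G σ (fderiv ℝ F σ y) 0 = 0 := by
      have := chris_smul_right G σ 0 (fderiv ℝ F σ y) 0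
      rwa [zero_smul, zero_smul] at this
    rw [hD0, hw, map_zero, zero_add, h1, add_zero, hwP]
    exact hN.iso σ hσ hσ0 w w hw hw
  -- (7)
  have f7 : - G (gam F σ y t) (Vf κ F σ y w t) (Vf κ F σ y w t) ≤
      G (gam F σ y t) (riem G (gam F σ y t) (Tv F σ y t) (Vf κ F σ y w t) (Tv F σ y t))
        (Vf κ F σ y w t) := by
    have h1 := hS.sec (gam F σ y t) (hOm t) (Vf κ F σ y w t) (Tv F σ y t)
    rw [f3, mul_one] at h1
    rw [RF.H9.riem_skew (Tv F σ y t) (Vf κ F σ y w t), map_neg, _root_.neg_apply]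
    have h2 := sq_nonneg (G (gam F σ y t) (Vf κ F σ y w t) (Tv F σ y t))
    linarith
  exact ⟨f3, f4 w, f5, f7, f8, ⟨f9a, f9b⟩, ⟨f10a t, f10b⟩, f11, f12 w⟩

end Pool.Agent.MVS.H81
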